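import Pool.Agent.H12.UCR.Stmts4

/-!
# SBU: the substitution `y = p ^ u`
-/

set_option autoImplicit false

open MeasureTheory Filter Topology

namespace Pool.UCR

theorem sbu_cont (p : ℕ) (s : ℝ) (J : ℕ) :
    Continuous (fun y : ℝ => ∏ j ∈ Finset.range J, ‖ph s ((p : ℝ) ^ j * y)‖) := by
  refine continuous_finsetProd _ fun j _ => ?_
  unfold ph
  fun_prop

theorem sbu_per (h1 : PHNS) (p : ℕ) (s : ℝ) (hs0 : 0 ≤ s) (hs1 : s ≤ 1) (J : ℕ) :
    Function.Periodic (fun y : ℝ => ∏ j ∈ Finset.range J, ‖ph s ((p : ℝ) ^ j * y)‖) 1 := by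
  intro y
  refine Finset.prod_congr rfl fun j _ => ?_
  have h2 := (h1 s ((p : ℝ) ^ j * y) hs0 hs1).2.2.1 ((p : ℤ) ^ j)
  have h3 : (p : ℝ) ^ j * (y + 1) = (p : ℝ) ^ j * y + (((p : ℤ) ^ j : ℤ) : ℝ) := by
    push_cast
    ring
  rw [h3, h2]

theorem sbu_thm (h1 : PHNS) (h2 : TROS) : SBUS := by
  intro p s hp hs0 hs1 J
  set g : ℝ → ℝ := fun y : ℝ => ∏ j ∈ Finset.range J, ‖ph s ((p : ℝ) ^ j * y)‖ with hg
  have hgc : Continuous g := sbu_cont p s J
  have hgp : Function.Periodic g 1 := sbu_per h1 p s hs0 hs1 J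
  have hg0 : ∀ y, 0 ≤ g y := fun y => Finset.prod_nonneg fun j _ => norm_nonneg _
  have hp0 : (0 : ℝ) < p := by
    have : 0 < p := by omega
    exact_mod_cast this
  have hp1 : (1 : ℝ) ≤ p := by
    have : 1 ≤ p := by omega
    exact_mod_cast this
  have hp2 : (2 : ℝ) ≤ p := by exact_mod_cast hp
  have hlog : 1 / 2 < Real.log p := by
    have h3 : Real.log 2 ≤ Real.log p := Real.log_le_log (by norm_num) hp2
    linarith [Real.log_two_gt_d9]
  have hlog0 : 0 < Real.log p := by linarith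
  have hfc : Continuous (fun u : ℝ => (p : ℝ) ^ u) := Real.continuous_const_rpow hp0.ne'
  -- the substitution
  have hsub : ∫ u in (0 : ℝ)..1, (g ∘ fun u : ℝ => (p : ℝ) ^ u) u * (Real.log p * (p : ℝ) ^ u) =
      ∫ y in (1 : ℝ)..p, g y := by
    have h3 := intervalIntegral.integral_comp_mul_deriv (a := (0 : ℝ)) (b := 1)
      (f := fun u : ℝ => (p : ℝ) ^ u) (f' := fun u : ℝ => Real.log p * (p : ℝ) ^ u) (g := g)
      (fun u _ => by
        have h4 := (hasDerivAt_id u).const_rpow hp0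
        simpa [mul_comm] using h4)
      ((continuous_const.mul hfc).continuousOn) hgc
    rw [h3]
    simp only [Real.rpow_zero, Real.rpow_one]
  have hper : ∫ y in (1 : ℝ)..p, g y = ((p : ℝ) - 1) * ∫ y in (0 : ℝ)..1, g y := by
    have h3 := hgp.intervalIntegral_add_zsmul_eq ((p : ℤ) - 1) 1
      (fun a b => hgc.intervalIntegrable a b)
    have h4 : (1 : ℝ) + ((p : ℤ) - 1) • (1 : ℝ) = p := by
      rw [zsmul_eq_mul]
      push_cast
      ring
    have h5 := hgp.intervalIntegral_add_eq 1 0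
    rw [zero_add] at h5
    rw [h4, h5, zsmul_eq_mul] at h3
    rw [h3]
    push_cast
    ring
  -- comparison
  have hle : Real.log p * ∫ u in (0 : ℝ)..1, g ((p : ℝ) ^ u) ≤
      ∫ u in (0 : ℝ)..1, (g ∘ fun u : ℝ => (p : ℝ) ^ u) u * (Real.log p * (p : ℝ) ^ u) := by
    rw [← intervalIntegral.integral_const_mul]
    refine intervalIntegral.integral_mono_on zero_le_one ?_ ?_ ?_
    · exact (continuous_const.mul (hgc.comp hfc)).intervalIntegrable _ _
    · exact ((hgc.comp hfc).mul (continuous_const.mul hfc)).intervalIntegrable _ _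
    · intro u hu
      have h3 : (1 : ℝ) ≤ (p : ℝ) ^ u := Real.one_le_rpow hp1 hu.1
      have h4 : 0 ≤ g ((p : ℝ) ^ u) := hg0 _
      change Real.log p * g ((p : ℝ) ^ u) ≤ g ((p : ℝ) ^ u) * (Real.log p * (p : ℝ) ^ u)
      have h5 : 0 ≤ Real.log p * g ((p : ℝ) ^ u) := mul_nonneg hlog0.le h4
      nlinarith
  have hI0 : 0 ≤ ∫ y in (0 : ℝ)..1, g y :=
    intervalIntegral.integral_nonneg zero_le_one fun y _ => hg0 y
  have hT := h2 p s hp hs0 hs1 J
  have hJ : 0 ≤ ∫ u in (0 : ℝ)..1, g ((p : ℝ) ^ u) :=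
    intervalIntegral.integral_nonneg zero_le_one fun u _ => hg0 _
  have hfin : ∫ u in (0 : ℝ)..1, g ((p : ℝ) ^ u) ≤ 2 * p * ∫ y in (0 : ℝ)..1, g y := by
    rw [hsub, hper] at hle
    have h6 : 1 / 2 * ∫ u in (0 : ℝ)..1, g ((p : ℝ) ^ u) ≤
        Real.log p * ∫ u in (0 : ℝ)..1, g ((p : ℝ) ^ u) :=
      mul_le_mul_of_nonneg_right hlog.le hJ
    nlinarith
  refine hfin.trans ?_
  exact mul_le_mul_of_nonneg_left hT (by positivity)

end Pool.UCR
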